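import Pool.Agent.Q276.DA.Stm

set_option autoImplicit false

/-!
Project DA (helper276), job MID (helper177).
-/

namespace Pool.Agent.Q177.DA

open Finset Pool.Agent.Q276.DA

theorem exp_bd {x : ℝ} (hx : 12 / 5 ≤ x) : Real.exp (-x) ≤ 1 / 9 := by
  have h1 : (9 : ℝ) ≤ Real.exp (12 / 5) := by
    have h2 := Real.exp_one_gt_d9
    have h3 : Real.exp (12 / 5) = Real.exp 1 * Real.exp 1 * Real.exp (2 / 5) := by
      rw [← Real.exp_add, ← Real.exp_add]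
      norm_num
    have h4 := Real.add_one_le_exp (2 / 5 : ℝ)
    rw [h3]
    have h5 : (7.29 : ℝ) ≤ Real.exp 1 * Real.exp 1 := by nlinarith
    nlinarith
  have h6 : Real.exp (-x) ≤ Real.exp (-(12 / 5)) := Real.exp_le_exp.2 (by linarith)
  rw [Real.exp_neg (12 / 5)] at h6
  refine h6.trans ?_
  rw [inv_eq_one_div]
  exact one_div_le_one_div_of_le (by norm_num) h1

theorem t_MID (hM : S_MODS) (hB : S_BND) (hL : S_LOW) : S_MID := by
  intro ρ u hρ hu3 hu5 hρu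
  have hπ1 := Real.pi_gt_d4
  have hπ2 := Real.pi_lt_d4
  have hπ0 := Real.pi_pos
  have hu0 : 0 < u := by linarith
  have hρ3 : 3 * ρ ≤ Real.pi := by nlinarith
  have hρb : ρ ≤ 1.0472 := by
    norm_num at hπ2 ⊢
    linarith
  have hlow := hL ρ hρ hρ3
  have hW : 0 < 1 + u ^ 2 := by positivity
  have hz : (zp ρ u).re = ρ := by
    unfold zp
    simp
  have hzi : (zp ρ u).im = ρ * u := by
    unfold zp
    simp
  have hns : Complex.normSq (zp ρ u) = ρ ^ 2 * (1 + u ^ 2) := by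
    rw [Complex.normSq_apply, hz, hzi]
    ring
  have hre : (4 * (Real.pi : ℂ) ^ 2 / zp ρ u).re = 4 * Real.pi ^ 2 / (ρ * (1 + u ^ 2)) := by
    have e1 : 4 * (Real.pi : ℂ) ^ 2 / zp ρ u = ((4 * Real.pi ^ 2 : ℝ) : ℂ) * (zp ρ u)⁻¹ := by
      push_cast
      rw [div_eq_mul_inv]
    rw [e1, Complex.re_ofReal_mul, Complex.inv_re, hns, hz]
    field_simp
  have hX : 12 / 5 ≤ (4 * (Real.pi : ℂ) ^ 2 / zp ρ u).re := by
    rw [hre, le_div_iff₀ (by positivity)]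
    -- ρ (1 + u^2) u ≤ π (1 + u ^ 2) ≤ π (26/5) u
    have h1 : ρ * (1 + u ^ 2) ≤ Real.pi * (26 / 5) := by
      have h2 : ρ * (1 + u ^ 2) * u ≤ Real.pi * (26 / 5) * u := by
        have h3 : ρ * (1 + u ^ 2) * u = (ρ * u) * (1 + u ^ 2) := by ring
        have h4 : (ρ * u) * (1 + u ^ 2) ≤ Real.pi * (1 + u ^ 2) := mul_le_mul_of_nonneg_right hρu hW.le
        have h5 : 1 + u ^ 2 ≤ 26 / 5 * u := by nlinarith
        rw [h3]
        nlinarith
      exact le_of_mul_le_mul_right h2 hu0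
    norm_num at hπ1 hπ2 ⊢
    nlinarith
  have hGn : ‖G (4 * Real.pi ^ 2 / zp ρ u)‖ ≤ 13 / 100 := by
    have h1 := (hB (4 * Real.pi ^ 2 / zp ρ u)).2.2.2.1 hX
    have h2 := exp_bd hX
    norm_num at h1 ⊢
    linarith
  have hm := hM ρ u hρ
  have hm' : |S ρ u - (Real.pi ^ 2 / 6 * (u / (1 + u ^ 2)) - ρ / 2 * Real.arctan u + ρ ^ 2 * u / 24)| ≤ ρ * (13 / 100) :=
    hm.trans (mul_le_mul_of_nonneg_left hGn hρ.le)
  rw [abs_le] at hm'
  obtain ⟨m1, m2⟩ := hm'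
  have hat1 : Real.pi / 4 ≤ Real.arctan u := by
    rw [← Real.arctan_one]
    exact Real.arctan_strictMono.monotone (by linarith)
  have hat2 : Real.arctan u ≤ Real.pi / 2 := (Real.arctan_lt_pi_div_two u).le
  have huW1 : u / (1 + u ^ 2) ≤ 3 / 10 := by
    rw [div_le_iff₀ hW]
    nlinarith
  have huW2 : 9 / 10 ≤ u * (u / (1 + u ^ 2)) := by
    rw [← mul_div_assoc, le_div_iff₀ hW]
    nlinarith
  obtain ⟨w, hw⟩ : ∃ w : ℝ, w = u / (1 + u ^ 2) := ⟨_, rfl⟩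
  obtain ⟨t, ht⟩ : ∃ t : ℝ, t = Real.arctan u := ⟨_, rfl⟩
  obtain ⟨p, hp⟩ : ∃ p : ℝ, p = Real.pi := ⟨_, rfl⟩
  rw [← hw] at m1 m2 huW1 huW2
  rw [← ht] at m1 m2 hat1 hat2
  rw [← hp] at m1 m2 hat1 hat2 hρu hρ3 hlow hπ1 hπ2 hπ0
  norm_num at hπ1 hπ2 hρb
  have hw0 : 0 ≤ w := by
    rw [hw]
    positivity
  have hp2l : (9.8696 : ℝ) - 1 / 1000 ≤ p ^ 2 := by nlinarith
  have hp2u : p ^ 2 ≤ (9.87 : ℝ) := by nlinarith
  rw [abs_le]
  constructor
  · -- lower bound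
    have hρu' : ρ * u ≤ p := hρu
    -- multiply by u
    have h1 : ρ ^ 2 * u * u / 24 = (ρ * u) ^ 2 / 24 := by ring
    obtain ⟨θ, hθ⟩ : ∃ θ : ℝ, θ = ρ * u := ⟨_, rfl⟩
    have hθ0 : 0 < θ := by
      rw [hθ]
      positivity
    rw [← hθ] at hρu'
    have h2 : p ^ 2 / 6 * w * u - θ / 2 * (p / 2) + θ ^ 2 / 24 - θ * (13 / 100) ≤ S ρ u * u := by
      have h3 : ρ / 2 * t ≤ ρ / 2 * (p / 2) := mul_le_mul_of_nonneg_left hat2 (by positivity)
      have h4 : p ^ 2 / 6 * w - ρ / 2 * (p / 2) + ρ ^ 2 * u / 24 - ρ * (13 / 100) ≤ S ρ u := by linarith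
      have h5 := mul_le_mul_of_nonneg_right h4 hu0.le
      refine le_trans (le_of_eq ?_) h5
      rw [hθ]
      ring
    have h6 : p ^ 2 / 6 * (9 / 10) ≤ p ^ 2 / 6 * w * u := by
      have : p ^ 2 / 6 * w * u = p ^ 2 / 6 * (u * w) := by ring
      rw [this]
      exact mul_le_mul_of_nonneg_left huW2 (by positivity)
    -- the quadratic in θ is decreasing on [0, p]
    have h7 : -(p / 2 * (p / 2)) + p ^ 2 / 24 - p * (13 / 100) ≤ -(θ / 2 * (p / 2)) + θ ^ 2 / 24 - θ * (13 / 100) := by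
      nlinarith [mul_nonneg (sub_nonneg.2 hρu') hθ0.le, mul_nonneg (sub_nonneg.2 hρu') hπ0.le]
    have h8 : -(105 / 100 : ℝ) ≤ S ρ u * u := by
      have h9 : p ^ 2 / 6 * (9 / 10) + (-(p / 2 * (p / 2)) + p ^ 2 / 24 - p * (13 / 100)) = -(7 / 120) * p ^ 2 - p * (13 / 100) := by ring
      nlinarith
    have h10 : -(7 / 20 : ℝ) ≤ S ρ u := by
      by_contra hc
      push Not at hc
      nlinarith
    have h11 : (45 / 100 : ℝ) ≤ S ρ 1 := by
      have h12 : ρ * p / 8 ≤ p / 3 * p / 8 - (p / 3 - ρ) * p / 8 := by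
        apply le_of_eq
        ring
      have h13 : 0 ≤ p / 3 - ρ := by linarith
      have h14 : (p / 3) ^ 2 / 24 - (p / 3 - ρ) * (2 * (p / 3)) / 24 ≤ ρ ^ 2 / 24 := by nlinarith [sq_nonneg (p / 3 - ρ)]
      nlinarith
    linarith
  · -- upper bound
    have h1 : p ^ 2 / 6 * w ≤ p ^ 2 / 6 * (3 / 10) := mul_le_mul_of_nonneg_left huW1 (by positivity)
    have h2 : ρ / 2 * (p / 4) ≤ ρ / 2 * t := mul_le_mul_of_nonneg_left hat1 (by positivity)
    have h3 : ρ ^ 2 * u / 24 ≤ ρ * p / 24 := by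
      have : ρ ^ 2 * u = ρ * (ρ * u) := by ring
      rw [this]
      have := mul_le_mul_of_nonneg_left hρu hρ.le
      linarith
    have h4 : ρ * p ≤ p / 3 * p := mul_le_mul_of_nonneg_right (by linarith) hπ0.le
    have h5 : 0 ≤ ρ ^ 2 := sq_nonneg ρ
    nlinarith

end Pool.Agent.Q177.DA
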