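import Pool.Agent.Q276.DA.Stm

set_option autoImplicit false

/-!
Project DA (helper276), jobs ZF, MODS (helper177).
-/

namespace Pool.Agent.Q177.DA

open Finset Pool.Agent.Q276.DA

theorem sg_le (k : ℕ) : sg k ≤ k ^ 2 := by
  unfold sg
  calc ∑ d ∈ k.divisors, d ≤ ∑ _d ∈ k.divisors, k := sum_le_sum fun d hd => Nat.divisor_le hd
    _ = k.divisors.card * k := by rw [sum_const, smul_eq_mul]
    _ ≤ k * k := Nat.mul_le_mul_right _ (Nat.card_divisors_le_self k)
    _ = k ^ 2 := by ring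

theorem tail_le (m : ℕ) : ∑ k ∈ range (m + 3), (sg (k + 2) : ℝ) * (2 / 15) ^ (k + 1) ≤
    3 * (2 / 15) + 4 * (2 / 15) ^ 2 + 7 * (2 / 15) ^ 3 + 25 * (2 / 15) ^ 4 * (5 / 4) * (1 - (1 / 5) ^ m) ∧
    ((m : ℝ) + 5) ^ 2 * (2 / 15) ^ (m + 4) ≤ 25 * (2 / 15) ^ 4 * (1 / 5) ^ m := by
  induction m with
  | zero =>
    constructor
    · have h2 : sg 2 = 3 := by decide
      have h3 : sg 3 = 4 := by decide
      have h4 : sg 4 = 7 := by decide
      rw [sum_range_succ, sum_range_succ, sum_range_succ, sum_range_zero]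
      norm_num [h2, h3, h4]
    · norm_num
  | succ m ih =>
    obtain ⟨h1, h2⟩ := ih
    constructor
    · rw [show m + 1 + 3 = (m + 3) + 1 by ring, sum_range_succ]
      have h3 : (sg (m + 3 + 2) : ℝ) ≤ ((m : ℝ) + 5) ^ 2 := by
        have := sg_le (m + 3 + 2)
        have h4 : (sg (m + 3 + 2) : ℝ) ≤ ((m + 3 + 2 : ℕ) : ℝ) ^ 2 := by exact_mod_cast this
        refine h4.trans (le_of_eq ?_)
        push_cast
        ring
      have h5 : (sg (m + 3 + 2) : ℝ) * (2 / 15) ^ (m + 3 + 1) ≤ 25 * (2 / 15) ^ 4 * (1 / 5) ^ m := by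
        refine (mul_le_mul_of_nonneg_right h3 (by positivity)).trans ?_
        rw [show m + 3 + 1 = m + 4 by ring]
        exact h2
      have h6 : 25 * (2 / 15 : ℝ) ^ 4 * (5 / 4) * (1 - (1 / 5) ^ (m + 1)) =
          25 * (2 / 15) ^ 4 * (5 / 4) * (1 - (1 / 5) ^ m) + 25 * (2 / 15) ^ 4 * (1 / 5) ^ m := by
        rw [pow_succ (1 / 5 : ℝ) m]
        ring
      rw [h6]
      linarith
    · rw [show m + 1 + 4 = (m + 4) + 1 by ring, pow_succ (2 / 15 : ℝ) (m + 4), pow_succ (1 / 5 : ℝ) m]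
      push_cast
      have hm : (0 : ℝ) ≤ m := Nat.cast_nonneg m
      have h3 : ((m : ℝ) + 1 + 5) ^ 2 * (2 / 15) ≤ ((m : ℝ) + 5) ^ 2 * (1 / 5) := by nlinarith
      have hp : (0 : ℝ) < (2 / 15) ^ (m + 4) := by positivity
      calc ((m : ℝ) + 1 + 5) ^ 2 * ((2 / 15) ^ (m + 4) * (2 / 15)) = (((m : ℝ) + 1 + 5) ^ 2 * (2 / 15)) * (2 / 15) ^ (m + 4) := by ring
        _ ≤ (((m : ℝ) + 5) ^ 2 * (1 / 5)) * (2 / 15) ^ (m + 4) := mul_le_mul_of_nonneg_right h3 hp.le
        _ = (((m : ℝ) + 5) ^ 2 * (2 / 15) ^ (m + 4)) * (1 / 5) := by ring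
        _ ≤ (25 * (2 / 15) ^ 4 * (1 / 5) ^ m) * (1 / 5) := mul_le_mul_of_nonneg_right h2 (by norm_num)
        _ = 25 * (2 / 15) ^ 4 * ((1 / 5) ^ m * (1 / 5)) := by ring

theorem sum_half (m : ℕ) : ∑ k ∈ range m, (sg (k + 2) : ℝ) * (2 / 15) ^ (k + 1) ≤ 1 / 2 := by
  have h1 := (tail_le m).1
  have h2 : ∑ k ∈ range m, (sg (k + 2) : ℝ) * (2 / 15) ^ (k + 1) ≤ ∑ k ∈ range (m + 3), (sg (k + 2) : ℝ) * (2 / 15) ^ (k + 1) :=
    sum_le_sum_of_subset_of_nonneg (range_subset_range.2 (by omega)) fun k _ _ => by positivity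
  have h3 : (0 : ℝ) ≤ (1 / 5) ^ m := by positivity
  have h4 : 3 * (2 / 15) + 4 * (2 / 15) ^ 2 + 7 * (2 / 15) ^ 3 + 25 * (2 / 15) ^ 4 * (5 / 4) * (1 - (1 / 5) ^ m) ≤ (1 / 2 : ℝ) := by
    have h5 : 25 * (2 / 15 : ℝ) ^ 4 * (5 / 4) * (1 - (1 / 5) ^ m) ≤ 25 * (2 / 15) ^ 4 * (5 / 4) := by
      nlinarith
    refine (add_le_add_right h5 _).trans ?_
    norm_num
  linarith

theorem t_ZF (hR : S_REC) : S_ZF := by
  obtain ⟨r0, r1, -⟩ := hR
  intro x n hn
  -- the main claim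
  have key : ∀ m : ℕ, m ≤ n → P x m ≠ 0 ∧ ∀ j ≤ m, ‖P x (m - j)‖ ≤ (2 / 15) ^ j * ‖P x m‖ := by
    intro m
    induction m with
    | zero =>
      intro _
      refine ⟨by rw [r0]; exact one_ne_zero, fun j hj => ?_⟩
      have : j = 0 := by omega
      subst this
      simp
    | succ m ih =>
      intro hm
      obtain ⟨h0, h1⟩ := ih (by omega)
      have hm1 : ((m : ℝ) + 1) ≤ ‖x‖ / 15 := by
        have : ((m + 1 : ℕ) : ℝ) ≤ n := by exact_mod_cast hm
        push_cast at this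
        linarith
      have hx0 : 0 < ‖x‖ := by
        have : (0 : ℝ) ≤ m := Nat.cast_nonneg m
        linarith
      have hpos : 0 < ‖P x m‖ := norm_pos_iff.2 h0
      have h2 := r1 x m
      rw [sum_range_succ'] at h2
      have hs1 : sg (0 + 1) = 1 := by decide
      rw [hs1, Nat.cast_one, one_mul, Nat.sub_zero] at h2
      have h3 : ‖∑ k ∈ range m, (sg (k + 1 + 1) : ℂ) * P x (m - (k + 1))‖ ≤ 1 / 2 * ‖P x m‖ := by
        refine (norm_sum_le _ _).trans ?_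
        calc ∑ k ∈ range m, ‖(sg (k + 1 + 1) : ℂ) * P x (m - (k + 1))‖
            ≤ ∑ k ∈ range m, ((sg (k + 2) : ℝ) * (2 / 15) ^ (k + 1)) * ‖P x m‖ := by
              refine sum_le_sum fun k hk => ?_
              rw [mem_range] at hk
              rw [norm_mul, Complex.norm_natCast, mul_assoc]
              exact mul_le_mul_of_nonneg_left (h1 (k + 1) (by omega)) (Nat.cast_nonneg _)
          _ = (∑ k ∈ range m, (sg (k + 2) : ℝ) * (2 / 15) ^ (k + 1)) * ‖P x m‖ := by rw [sum_mul]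
          _ ≤ 1 / 2 * ‖P x m‖ := mul_le_mul_of_nonneg_right (sum_half m) (norm_nonneg _)
      have h4 : ‖x‖ * (1 / 2 * ‖P x m‖) ≤ ((m : ℝ) + 1) * ‖P x (m + 1)‖ := by
        have e1 : ‖((m : ℂ) + 1) * P x (m + 1)‖ = ((m : ℝ) + 1) * ‖P x (m + 1)‖ := by
          rw [norm_mul]
          congr 1
          have : ((m : ℂ) + 1) = ((m + 1 : ℕ) : ℂ) := by push_cast; ring
          rw [this, Complex.norm_natCast]
          push_cast
          ring
        rw [← e1, h2, norm_mul]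
        apply mul_le_mul_of_nonneg_left _ (norm_nonneg _)
        have h5 := norm_sub_le (∑ k ∈ range m, (sg (k + 1 + 1) : ℂ) * P x (m - (k + 1)) + P x m) (∑ k ∈ range m, (sg (k + 1 + 1) : ℂ) * P x (m - (k + 1)))
        rw [add_sub_cancel_left] at h5
        linarith
      have h5 : ‖P x m‖ ≤ 2 / 15 * ‖P x (m + 1)‖ := by
        have h6 : ((m : ℝ) + 1) * ‖P x (m + 1)‖ ≤ ‖x‖ / 15 * ‖P x (m + 1)‖ := mul_le_mul_of_nonneg_right hm1 (norm_nonneg _)
        have h7 : ‖x‖ * (1 / 2 * ‖P x m‖) ≤ ‖x‖ * (1 / 15 * ‖P x (m + 1)‖) := by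
          refine (h4.trans h6).trans (le_of_eq ?_)
          ring
        have h8 := le_of_mul_le_mul_left h7 hx0
        linarith
      refine ⟨?_, ?_⟩
      · intro h6
        rw [h6, norm_zero, mul_zero] at h5
        linarith
      · intro j hj
        rcases Nat.eq_zero_or_pos j with h6 | h6
        · subst h6
          simp
        · have h7 := h1 (j - 1) (by omega)
          have e1 : m - (j - 1) = m + 1 - j := by omega
          rw [e1] at h7
          refine h7.trans ?_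
          have e2 : (2 / 15 : ℝ) ^ j = (2 / 15) ^ (j - 1) * (2 / 15) := by
            rw [← pow_succ]
            congr 1
            omega
          rw [e2, mul_assoc]
          exact mul_le_mul_of_nonneg_left h5 (by positivity)
  exact (key n le_rfl).1

theorem t_MODS (hG : S_MODG) : S_MODS := by
  intro ρ u hρ
  have hz : (zp ρ u).re = ρ := by
    unfold zp
    simp
  have hzi : (zp ρ u).im = ρ * u := by
    unfold zp
    simp
  have h1 := hG (zp ρ u) (by rw [hz]; exact hρ)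
  have hW : 0 < 1 + u ^ 2 := by positivity
  have hns : Complex.normSq (zp ρ u) = ρ ^ 2 * (1 + u ^ 2) := by
    rw [Complex.normSq_apply, hz, hzi]
    ring
  have hinv : ((Real.pi : ℂ) ^ 2 / (6 * zp ρ u)).im = -(Real.pi ^ 2 / 6 * (u / (1 + u ^ 2)) / ρ) := by
    have e1 : (Real.pi : ℂ) ^ 2 / (6 * zp ρ u) = ((Real.pi ^ 2 / 6 : ℝ) : ℂ) * (zp ρ u)⁻¹ := by
      push_cast
      field_simp
    rw [e1, Complex.im_ofReal_mul, Complex.inv_im, hns, hzi]
    field_simp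
  have harg : Complex.arg (zp ρ u) = Real.arctan u := by
    rw [Complex.arg_of_re_nonneg (by rw [hz]; exact hρ.le), Real.arctan_eq_arcsin]
    congr 1
    have hnorm : ‖zp ρ u‖ = ρ * √(1 + u ^ 2) := by
      rw [← Real.sqrt_sq (norm_nonneg (zp ρ u)), ← Complex.normSq_eq_norm_sq, hns, Real.sqrt_mul (by positivity), Real.sqrt_sq hρ.le]
    rw [hnorm, hzi, mul_div_mul_left _ _ hρ.ne']
  have h2 : S ρ u - (Real.pi ^ 2 / 6 * (u / (1 + u ^ 2)) - ρ / 2 * Real.arctan u + ρ ^ 2 * u / 24) =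
      -ρ * (G (4 * Real.pi ^ 2 / zp ρ u)).im := by
    unfold S
    rw [h1, hinv, harg, hzi]
    field_simp
    ring
  rw [h2, abs_mul, abs_neg, abs_of_pos hρ]
  exact mul_le_mul_of_nonneg_left (Complex.abs_im_le_norm _) hρ.le

end Pool.Agent.Q177.DA
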